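import Pool.Agent.Helper12.AD.Stmts

set_option autoImplicit false

namespace AD

theorem t1a_w_neg (r s : ℝ) : w r (-s) = w r s := by simp [w]

theorem t1a_w_anti {r s t : ℝ} (h : |s| ≤ |t|) : w r t ≤ w r s := by
  unfold w
  apply Real.sqrt_le_sqrt
  have := sq_le_sq.mpr h
  linarith

theorem st_T1A (hcv : ST_WCV) (hcc : ST_WCC) : ST_T1A := by
  intro r d a σ X Y hr hd haσ hdσ hXY hX hY
  obtain ⟨ha1, ha2⟩ := abs_le.mp haσ
  have hσ : 0 ≤ σ := le_trans (abs_nonneg a) haσ
  have hev : ∀ s, w r (-s) = w r s := t1a_w_neg r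
  -- the two end points
  obtain ⟨d1, hd1a, hd1b, hE1, hE1'⟩ : ∃ d1, -d ≤ d1 ∧ d1 ≤ d ∧
      w r (d - a) + w r (d - σ) ≤ w r (d1 - a) + w r (d1 - σ) ∧
      (w r (d - σ) + w r (d + σ) - w r (d - a)) + w r (d - σ) ≤ w r (d1 - a) + w r (d1 + σ) := by
    rcases le_total (2 * d) (a + σ) with h | h
    · refine ⟨d, by linarith, le_refl d, le_refl _, ?_⟩
      have : w r (d - σ) ≤ w r (d - a) := by
        apply t1a_w_anti
        rw [abs_le, abs_of_nonpos (by linarith : d - σ ≤ 0)]
        constructor <;> linarith
      linarith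
    · refine ⟨a + σ - d, by linarith, by linarith, ?_, ?_⟩
      · have h1 : w r (a + σ - d - a) = w r (d - σ) := by
          rw [← hev (d - σ)]; congr 1; ring
        have h2 : w r (a + σ - d - σ) = w r (d - a) := by
          rw [← hev (d - a)]; congr 1; ring
        linarith
      · have h1 : w r (a + σ - d - a) = w r (d - σ) := by
          rw [← hev (d - σ)]; congr 1; ring
        have h2 := hcc r (d - a) (a + σ - d + σ) (σ - d) (d + σ) hr (by linarith) hdσ
          (by linarith) (by linarith) (by ring)
        have h3 : w r (σ - d) = w r (d - σ) := by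
          rw [← hev (d - σ)]; congr 1; ring
        linarith
  obtain ⟨d2, hd2a, hd2b, hE2, hE2'⟩ : ∃ d2, -d ≤ d2 ∧ d2 ≤ d ∧
      w r (d + a) + w r (d - σ) ≤ w r (d2 - a) + w r (d2 + σ) ∧
      (w r (d - σ) + w r (d + σ) - w r (d + a)) + w r (d - σ) ≤ w r (d2 - a) + w r (d2 - σ) := by
    rcases le_total (2 * d) (σ - a) with h | h
    · refine ⟨-d, le_refl _, by linarith, ?_, ?_⟩
      · have h1 : w r (-d - a) = w r (d + a) := by
          rw [← hev (d + a)]; congr 1; ring
        have h2 : w r (-d + σ) = w r (d - σ) := by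
          rw [← hev (d - σ)]; congr 1; ring
        linarith
      · have h1 : w r (-d - a) = w r (d + a) := by
          rw [← hev (d + a)]; congr 1; ring
        have h2 : w r (-d - σ) = w r (d + σ) := by
          rw [← hev (d + σ)]; congr 1; ring
        have : w r (d - σ) ≤ w r (d + a) := by
          apply t1a_w_anti
          rw [abs_le, abs_of_nonpos (by linarith : d - σ ≤ 0)]
          constructor <;> linarith
        linarith
    · refine ⟨a - σ + d, by linarith, by linarith, ?_, ?_⟩
      · have h1 : w r (a - σ + d - a) = w r (d - σ) := by congr 1; ring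
        have h2 : w r (a - σ + d + σ) = w r (d + a) := by congr 1; ring
        linarith
      · have h1 : w r (a - σ + d - a) = w r (d - σ) := by congr 1; ring
        have h2 := hcc r (d + a) (2 * σ - a - d) (σ - d) (d + σ) hr (by linarith) hdσ
          (by linarith) (by linarith) (by ring)
        have h3 : w r (σ - d) = w r (d - σ) := by
          rw [← hev (d - σ)]; congr 1; ring
        have h4 : w r (a - σ + d - σ) = w r (2 * σ - a - d) := by
          rw [← hev (2 * σ - a - d)]; congr 1; ring
        linarith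
  -- intermediate points
  set X1 := w r (d - σ) + w r (d + σ) - w r (d - a) with hX1
  set X2 := w r (d + a) with hX2
  have hX1X : X1 ≤ X := by linarith
  rcases hX1X.eq_or_lt with he | hlt
  · refine ⟨d1, hd1a, hd1b, ?_, ?_⟩
    · have : Y = w r (d - a) := by linarith
      rw [this]; exact hE1
    · rw [← he]; exact hE1'
  · have hX12 : 0 < X2 - X1 := by linarith
    set l := (X - X1) / (X2 - X1) with hl
    have hl0 : 0 ≤ l := div_nonneg (by linarith) hX12.le
    have hl1 : l ≤ 1 := by rw [hl, div_le_one hX12]; linarith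
    have hlX : X = (1 - l) * X1 + l * X2 := by
      have : l * (X2 - X1) = X - X1 := by rw [hl]; field_simp
      linarith
    have hconc : ∀ m, |m| ≤ σ → (1 - l) * w r (d1 - m) + l * w r (d2 - m) ≤
        w r ((1 - l) * d1 + l * d2 - m) := by
      intro m hm
      obtain ⟨hm1, hm2⟩ := abs_le.mp hm
      have q1 : d1 - m ∈ Set.Icc (-r) r := ⟨by linarith, by linarith⟩
      have q2 : d2 - m ∈ Set.Icc (-r) r := ⟨by linarith, by linarith⟩
      have := (hcv r hr).2 q1 q2 (by linarith : 0 ≤ 1 - l) hl0 (by ring)
      simp only [smul_eq_mul] at this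
      have h2 : (1 - l) * (d1 - m) + l * (d2 - m) = (1 - l) * d1 + l * d2 - m := by ring
      rw [h2] at this
      exact this
    have hca := hconc a haσ
    have hcs := hconc σ (by rw [abs_of_nonneg hσ])
    have hcs' := hconc (-σ) (by rw [abs_neg, abs_of_nonneg hσ])
    simp only [sub_neg_eq_add] at hcs'
    have hl1' : 0 ≤ 1 - l := by linarith
    refine ⟨(1 - l) * d1 + l * d2, by nlinarith, by nlinarith, ?_, ?_⟩
    · have hY' : Y = (1 - l) * w r (d - a) + l * (w r (d - σ) + w r (d + σ) - X2) := by
        have e1 : Y = w r (d - σ) + w r (d + σ) - X := by linarith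
        rw [e1, hlX, hX1]; ring
      have k1 := mul_le_mul_of_nonneg_left hE1 hl1'
      have k2 := mul_le_mul_of_nonneg_left hE2' hl0
      rw [hY']
      nlinarith
    · have k1 := mul_le_mul_of_nonneg_left hE1' hl1'
      have k2 := mul_le_mul_of_nonneg_left hE2 hl0
      rw [hlX]
      nlinarith

end AD
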