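import Pool.Agent.Helper12.AD.Stmts

set_option autoImplicit false

namespace AD

theorem t1b_w_neg (r s : ℝ) : w r (-s) = w r s := by simp [w]

theorem st_T1B (hcc : ST_WCC) (h1a : ST_T1A) : ST_T1B := by
  intro r d a s t X Y A B hr hd ha hs ht hX hY hXA hYA hXB hYB
  have hev : ∀ s, w r (-s) = w r s := t1b_w_neg r
  obtain ⟨σ, hσa, hσs, hσt, hdσ, hσm⟩ : ∃ σ, |a| ≤ σ ∧ |s| ≤ σ ∧ |t| ≤ σ ∧ d + σ ≤ r ∧
      X + Y ≤ w r (d - σ) + w r (d + σ) := by
    have key : ∀ m, X + Y ≤ w r (d - m) + w r (d + m) →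
        X + Y ≤ w r (d - |m|) + w r (d + |m|) := by
      intro m hm
      rcases abs_cases m with ⟨h, _⟩ | ⟨h, _⟩
      · rw [h]; exact hm
      · rw [h, sub_neg_eq_add, ← sub_eq_add_neg]; linarith
    have k1 := key a (by linarith)
    have k2 := key s (by linarith)
    have k3 := key t (by linarith)
    rcases le_total |a| |s| with h1 | h1
    · rcases le_total |s| |t| with h2 | h2
      · exact ⟨|t|, h1.trans h2, h2, le_refl _, ht, k3⟩
      · exact ⟨|s|, h1, le_refl _, h2, hs, k2⟩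
    · rcases le_total |a| |t| with h2 | h2
      · exact ⟨|t|, h2, h1.trans h2, le_refl _, ht, k3⟩
      · exact ⟨|a|, le_refl _, h1, h2, ha, k1⟩
  obtain ⟨ha1, ha2⟩ := abs_le.mp hσa
  obtain ⟨hs1, hs2⟩ := abs_le.mp hσs
  obtain ⟨ht1, ht2⟩ := abs_le.mp hσt
  have hσ : 0 ≤ σ := le_trans (abs_nonneg a) hσa
  have hs' := (abs_le.mp (show |s| ≤ r - d by linarith))
  have ht' := (abs_le.mp (show |t| ≤ r - d by linarith))
  have hSa : w r (d - σ) + w r (d + σ) ≤ w r (d - a) + w r (d + a) :=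
    hcc r (d - a) (d + a) (d - σ) (d + σ) hr (by linarith) hdσ (by linarith) (by linarith)
      (by ring)
  set S := w r (d - σ) + w r (d + σ) with hS
  set X' := min (w r (d + a)) (S - Y) with hX'
  have e1 : X' ≤ w r (d + a) := min_le_left _ _
  have e2 : X' ≤ S - Y := min_le_right _ _
  have e3 : X ≤ X' := le_min hX (by linarith)
  have e4 : S - X' ≤ w r (d - a) := by
    rcases min_choice (w r (d + a)) (S - Y) with h | h
    · rw [hX', h]; linarith
    · rw [hX', h]; linarith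
  obtain ⟨δ, hδ1, hδ2, hA, hB⟩ := h1a r d a σ X' (S - X') hr hd hσa hdσ (by rw [hS]; ring) e1 e4
  refine ⟨δ, hδ1, hδ2, ?_, ?_⟩
  · have := hcc r (δ - s) (d - σ) (δ - σ) (d - s) hr (by linarith) (by linarith) (by linarith)
      (by linarith) (by ring)
    linarith
  · have := hcc r (δ - t) (σ - d) (-d - t) (δ + σ) hr (by linarith) (by linarith) (by linarith)
      (by linarith) (by ring)
    have h1 : w r (-d - t) = w r (d + t) := by rw [← hev (d + t)]; congr 1; ring
    have h2 : w r (σ - d) = w r (d - σ) := by rw [← hev (d - σ)]; congr 1; ring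
    linarith

end AD
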