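import Pool.Agent.Helper12.AD.Stmts

set_option autoImplicit false

namespace AD

def TRIQ (r y0 y1 y2 H z u v : ℝ) : Prop :=
  ∃ c₁ c₂, Dk r (c₁ - u) (c₂ - y0) ∧ Dk r (c₁ - v) (c₂ - y1) ∧ Dk r (c₁ - z) (H - c₂ - y2)

theorem tri_dk3 {r x y x' y' x'' y'' a b c : ℝ} (h : Dk r x y) (h' : Dk r x' y')
    (h'' : Dk r x'' y'') (ha : 0 ≤ a) (hb : 0 ≤ b) (hc : 0 ≤ c) (habc : a + b + c = 1) :
    Dk r (a * x + b * x' + c * x'') (a * y + b * y' + c * y'') := by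
  unfold Dk at *
  have e1 : (a * x + b * x' + c * x'') ^ 2 ≤ a * x ^ 2 + b * x' ^ 2 + c * x'' ^ 2 := by
    have hc' : c = 1 - a - b := by linarith
    have k1 := mul_nonneg (mul_nonneg ha hb) (sq_nonneg (x - x'))
    have k2 := mul_nonneg (mul_nonneg ha hc) (sq_nonneg (x - x''))
    have k3 := mul_nonneg (mul_nonneg hb hc) (sq_nonneg (x' - x''))
    have e : a * x ^ 2 + b * x' ^ 2 + c * x'' ^ 2 - (a * x + b * x' + c * x'') ^ 2 =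
        a * b * (x - x') ^ 2 + a * c * (x - x'') ^ 2 + b * c * (x' - x'') ^ 2 := by
      rw [hc']; ring
    linarith
  have e2 : (a * y + b * y' + c * y'') ^ 2 ≤ a * y ^ 2 + b * y' ^ 2 + c * y'' ^ 2 := by
    have hc' : c = 1 - a - b := by linarith
    have k1 := mul_nonneg (mul_nonneg ha hb) (sq_nonneg (y - y'))
    have k2 := mul_nonneg (mul_nonneg ha hc) (sq_nonneg (y - y''))
    have k3 := mul_nonneg (mul_nonneg hb hc) (sq_nonneg (y' - y''))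
    have e : a * y ^ 2 + b * y' ^ 2 + c * y'' ^ 2 - (a * y + b * y' + c * y'') ^ 2 =
        a * b * (y - y') ^ 2 + a * c * (y - y'') ^ 2 + b * c * (y' - y'') ^ 2 := by
      rw [hc']; ring
    linarith
  have k1 := mul_le_mul_of_nonneg_left h ha
  have k2 := mul_le_mul_of_nonneg_left h' hb
  have k3 := mul_le_mul_of_nonneg_left h'' hc
  have k4 : a * r ^ 2 + b * r ^ 2 + c * r ^ 2 = r ^ 2 := by
    rw [← add_mul, ← add_mul, habc, one_mul]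
  nlinarith

theorem TRIQ.comb {r y0 y1 y2 H z u v u' v' u'' v'' a b c : ℝ} (h : TRIQ r y0 y1 y2 H z u v)
    (h' : TRIQ r y0 y1 y2 H z u' v') (h'' : TRIQ r y0 y1 y2 H z u'' v'') (ha : 0 ≤ a)
    (hb : 0 ≤ b) (hc : 0 ≤ c) (habc : a + b + c = 1) :
    TRIQ r y0 y1 y2 H z (a * u + b * u' + c * u'') (a * v + b * v' + c * v'') := by
  obtain ⟨c₁, c₂, h1, h2, h3⟩ := h
  obtain ⟨c₁', c₂', h1', h2', h3'⟩ := h'
  obtain ⟨c₁'', c₂'', h1'', h2'', h3''⟩ := h''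
  have hc' : c = 1 - a - b := by linarith
  refine ⟨a * c₁ + b * c₁' + c * c₁'', a * c₂ + b * c₂' + c * c₂'', ?_, ?_, ?_⟩
  · have := tri_dk3 h1 h1' h1'' ha hb hc habc
    have e1 : a * c₁ + b * c₁' + c * c₁'' - (a * u + b * u' + c * u'') =
        a * (c₁ - u) + b * (c₁' - u') + c * (c₁'' - u'') := by ring
    have e2 : a * c₂ + b * c₂' + c * c₂'' - y0 =
        a * (c₂ - y0) + b * (c₂' - y0) + c * (c₂'' - y0) := by rw [hc']; ring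
    rw [e1, e2]; exact this
  · have := tri_dk3 h2 h2' h2'' ha hb hc habc
    have e1 : a * c₁ + b * c₁' + c * c₁'' - (a * v + b * v' + c * v'') =
        a * (c₁ - v) + b * (c₁' - v') + c * (c₁'' - v'') := by ring
    have e2 : a * c₂ + b * c₂' + c * c₂'' - y1 =
        a * (c₂ - y1) + b * (c₂' - y1) + c * (c₂'' - y1) := by rw [hc']; ring
    rw [e1, e2]; exact this
  · have := tri_dk3 h3 h3' h3'' ha hb hc habc
    have e1 : a * c₁ + b * c₁' + c * c₁'' - z =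
        a * (c₁ - z) + b * (c₁' - z) + c * (c₁'' - z) := by rw [hc']; ring
    have e2 : H - (a * c₂ + b * c₂' + c * c₂'') - y2 =
        a * (H - c₂ - y2) + b * (H - c₂' - y2) + c * (H - c₂'' - y2) := by rw [hc']; ring
    rw [e1, e2]; exact this

theorem TRIQ.neg {r y0 y1 y2 H z u v : ℝ} (h : TRIQ r y0 y1 y2 H z u v) :
    TRIQ r y0 y1 y2 H (-z) (-u) (-v) := by
  obtain ⟨c₁, c₂, h1, h2, h3⟩ := h
  refine ⟨-c₁, c₂, ?_, ?_, ?_⟩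
  · unfold Dk at *
    have : (-c₁ - -u) ^ 2 = (c₁ - u) ^ 2 := by ring
    rw [this]; exact h1
  · unfold Dk at *
    have : (-c₁ - -v) ^ 2 = (c₁ - v) ^ 2 := by ring
    rw [this]; exact h2
  · unfold Dk at *
    have : (-c₁ - -z) ^ 2 = (c₁ - z) ^ 2 := by ring
    rw [this]; exact h3

theorem TRIQ.hull {r y0 y1 y2 H z P₁ P₂ F₁ F₂ s t : ℝ} (hP : TRIQ r y0 y1 y2 H z P₁ P₂)
    (hP' : TRIQ r y0 y1 y2 H z (-P₁) (-P₂)) (hF : TRIQ r y0 y1 y2 H z F₁ F₂)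
    (hF' : TRIQ r y0 y1 y2 H z (-F₁) (-F₂)) (hst : |s| + |t| ≤ 1) :
    TRIQ r y0 y1 y2 H z (s * P₁ + t * F₁) (s * P₂ + t * F₂) := by
  have h0 : TRIQ r y0 y1 y2 H z 0 0 := by
    have := TRIQ.comb hP hP' hP (a := 1 / 2) (b := 1 / 2) (c := 0) (by norm_num) (by norm_num)
      (by norm_num) (by norm_num)
    have e1 : 1 / 2 * P₁ + 1 / 2 * -P₁ + 0 * P₁ = 0 := by ring
    have e2 : 1 / 2 * P₂ + 1 / 2 * -P₂ + 0 * P₂ = 0 := by ring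
    rw [e1, e2] at this
    exact this
  have hs : ∃ A₁ A₂, TRIQ r y0 y1 y2 H z A₁ A₂ ∧ |s| * A₁ = s * P₁ ∧ |s| * A₂ = s * P₂ := by
    rcases abs_cases s with ⟨h, _⟩ | ⟨h, _⟩
    · exact ⟨P₁, P₂, hP, by rw [h], by rw [h]⟩
    · exact ⟨-P₁, -P₂, hP', by rw [h]; ring, by rw [h]; ring⟩
  have ht : ∃ A₁ A₂, TRIQ r y0 y1 y2 H z A₁ A₂ ∧ |t| * A₁ = t * F₁ ∧ |t| * A₂ = t * F₂ := by
    rcases abs_cases t with ⟨h, _⟩ | ⟨h, _⟩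
    · exact ⟨F₁, F₂, hF, by rw [h], by rw [h]⟩
    · exact ⟨-F₁, -F₂, hF', by rw [h]; ring, by rw [h]; ring⟩
  obtain ⟨A₁, A₂, hA, hA1, hA2⟩ := hs
  obtain ⟨B₁, B₂, hB, hB1, hB2⟩ := ht
  have := TRIQ.comb hA hB h0 (abs_nonneg s) (abs_nonneg t) (by linarith : 0 ≤ 1 - |s| - |t|)
    (by ring)
  rw [hA1, hA2, hB1, hB2] at this
  simp only [mul_zero, add_zero] at this
  exact this

theorem tri_ratio {u U : ℝ} (h : |u| ≤ |U|) : ∃ α : ℝ, |α| ≤ 1 ∧ u = α * U := by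
  by_cases hU : U = 0
  · refine ⟨0, by simp, ?_⟩
    rw [hU, abs_zero] at h
    rw [abs_nonpos_iff.mp h]; simp
  · refine ⟨u / U, ?_, by field_simp⟩
    rw [abs_div, div_le_one (abs_pos.mpr hU)]
    exact h

theorem tri_st {α β : ℝ} (hα : |α| ≤ 1) (hβ : |β| ≤ 1) : |(α + β) / 2| + |(α - β) / 2| ≤ 1 := by
  obtain ⟨h1, h2⟩ := abs_le.mp hα
  obtain ⟨h3, h4⟩ := abs_le.mp hβ
  rcases abs_cases ((α + β) / 2) with ⟨h, _⟩ | ⟨h, _⟩ <;>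
    rcases abs_cases ((α - β) / 2) with ⟨h', _⟩ | ⟨h', _⟩ <;> rw [h, h'] <;> linarith

theorem tri_base {r a0 b0 a1 b1 a2 b2 x₁ x₂ y₁ y₂ : ℝ}
    (hx0 : Dk r (x₁ - a0) (x₂ - b0)) (hx1 : Dk r (x₁ - a1) (x₂ - b1))
    (hy2 : Dk r (y₁ - a2) (y₂ - b2)) :
    TRIQ r b0 b1 b2 (x₂ + y₂) (x₁ - y₁) (a0 - a2) (a1 - a2) := by
  refine ⟨x₁ - a2, x₂, ?_, ?_, ?_⟩
  · have : x₁ - a2 - (a0 - a2) = x₁ - a0 := by ring
    rw [this]; exact hx0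
  · have : x₁ - a2 - (a1 - a2) = x₁ - a1 := by ring
    rw [this]; exact hx1
  · have e1 : x₁ - a2 - (x₁ - y₁) = y₁ - a2 := by ring
    have e2 : x₂ + y₂ - x₂ - b2 = y₂ - b2 := by ring
    rw [e1, e2]; exact hy2

theorem tri_fold2 (hf : ST_FLD) {r a0 b0 a1 b1 a2 b2 x₁ x₂ y₁ y₂ : ℝ} (hr : 0 < r)
    (hx0 : Dk r (x₁ - a0) (x₂ - b0)) (hx1 : Dk r (x₁ - a1) (x₂ - b1))
    (hx2 : Dk r (x₁ - a2) (x₂ - b2)) (hy0 : Dk r (y₁ - a0) (y₂ - b0))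
    (hy1 : Dk r (y₁ - a1) (y₂ - b1)) (hy2 : Dk r (y₁ - a2) (y₂ - b2))
    (h : (a0 ≤ a2 ∧ a2 ≤ a1) ∨ (a1 ≤ a2 ∧ a2 ≤ a0)) :
    TRIQ r b0 b1 b2 (x₂ + y₂) (x₁ - y₁) |a0 - a2| |a1 - a2| := by
  rcases h with ⟨h1, h2⟩ | ⟨h1, h2⟩
  · have e1 : x₁ - a2 + (a2 - a0) = x₁ - a0 := by ring
    have e2 : x₁ - a2 - (a1 - a2) = x₁ - a1 := by ring
    have e3 : y₁ - a2 + (a2 - a0) = y₁ - a0 := by ring
    have e4 : y₁ - a2 - (a1 - a2) = y₁ - a1 := by ring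
    obtain ⟨-, -, u₁, u₂, v₁, v₂, k1, k2, k3, k4, k5⟩ := hf r b2 b1 b0 (a1 - a2) (a2 - a0)
      (x₁ - a2) x₂ (y₁ - a2) y₂ hr (by linarith) (by linarith) hx2 (by rw [e1]; exact hx0)
      (by rw [e2]; exact hx1) hy2 (by rw [e3]; exact hy0) (by rw [e4]; exact hy1)
    refine ⟨u₁, u₂, ?_, ?_, ?_⟩
    · rw [abs_of_nonpos (by linarith : a0 - a2 ≤ 0)]
      have : u₁ - -(a0 - a2) = u₁ - (a2 - a0) := by ring
      rw [this]; exact k3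
    · rw [abs_of_nonneg (by linarith : 0 ≤ a1 - a2)]; exact k4
    · have f1 : u₁ - (x₁ - y₁) = v₁ := by linarith
      have f2 : x₂ + y₂ - u₂ = v₂ := by linarith
      rw [f1, f2]; exact k5
  · have e1 : x₁ - a2 + (a2 - a1) = x₁ - a1 := by ring
    have e2 : x₁ - a2 - (a0 - a2) = x₁ - a0 := by ring
    have e3 : y₁ - a2 + (a2 - a1) = y₁ - a1 := by ring
    have e4 : y₁ - a2 - (a0 - a2) = y₁ - a0 := by ring
    obtain ⟨-, -, u₁, u₂, v₁, v₂, k1, k2, k3, k4, k5⟩ := hf r b2 b0 b1 (a0 - a2) (a2 - a1)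
      (x₁ - a2) x₂ (y₁ - a2) y₂ hr (by linarith) (by linarith) hx2 (by rw [e1]; exact hx1)
      (by rw [e2]; exact hx0) hy2 (by rw [e3]; exact hy1) (by rw [e4]; exact hy0)
    refine ⟨u₁, u₂, ?_, ?_, ?_⟩
    · rw [abs_of_nonneg (by linarith : 0 ≤ a0 - a2)]; exact k4
    · rw [abs_of_nonpos (by linarith : a1 - a2 ≤ 0)]
      have : u₁ - -(a1 - a2) = u₁ - (a2 - a1) := by ring
      rw [this]; exact k3
    · have f1 : u₁ - (x₁ - y₁) = v₁ := by linarith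
      have f2 : x₂ + y₂ - u₂ = v₂ := by linarith
      rw [f1, f2]; exact k5

theorem tri_fold0 (hf : ST_FLD) {r a0 b0 a1 b1 a2 b2 x₁ x₂ y₁ y₂ : ℝ} (hr : 0 < r)
    (hx0 : Dk r (x₁ - a0) (x₂ - b0)) (hx1 : Dk r (x₁ - a1) (x₂ - b1))
    (hx2 : Dk r (x₁ - a2) (x₂ - b2)) (hy0 : Dk r (y₁ - a0) (y₂ - b0))
    (hy1 : Dk r (y₁ - a1) (y₂ - b1)) (hy2 : Dk r (y₁ - a2) (y₂ - b2))
    (h : (a2 ≤ a0 ∧ a0 ≤ a1) ∨ (a1 ≤ a0 ∧ a0 ≤ a2)) :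
    TRIQ r b0 b1 b2 (x₂ + y₂) (x₁ - y₁) (-|a0 - a2|) (-|a0 - a2| + |a1 - a0|) := by
  rcases h with ⟨h1, h2⟩ | ⟨h1, h2⟩
  · have e1 : x₁ - a0 + (a0 - a2) = x₁ - a2 := by ring
    have e2 : x₁ - a0 - (a1 - a0) = x₁ - a1 := by ring
    have e3 : y₁ - a0 + (a0 - a2) = y₁ - a2 := by ring
    have e4 : y₁ - a0 - (a1 - a0) = y₁ - a1 := by ring
    obtain ⟨-, ⟨u₁, u₂, v₁, v₂, k1, k2, k3, k4, k5⟩, -⟩ := hf r b0 b1 b2 (a1 - a0) (a0 - a2)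
      (x₁ - a0) x₂ (y₁ - a0) y₂ hr (by linarith) (by linarith) hx0 (by rw [e1]; exact hx2)
      (by rw [e2]; exact hx1) hy0 (by rw [e3]; exact hy2) (by rw [e4]; exact hy1)
    rw [abs_of_nonneg (by linarith : 0 ≤ a0 - a2), abs_of_nonneg (by linarith : 0 ≤ a1 - a0)]
    refine ⟨u₁ - (a0 - a2), u₂, ?_, ?_, ?_⟩
    · have : u₁ - (a0 - a2) - -(a0 - a2) = u₁ := by ring
      rw [this]; exact k3
    · have : u₁ - (a0 - a2) - (-(a0 - a2) + (a1 - a0)) = u₁ - (a1 - a0) := by ring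
      rw [this]; exact k4
    · have f1 : u₁ - (a0 - a2) - (x₁ - y₁) = v₁ - (a0 - a2) := by linarith
      have f2 : x₂ + y₂ - u₂ = v₂ := by linarith
      rw [f1, f2]; exact k5
  · have e1 : x₁ - a0 + (a0 - a1) = x₁ - a1 := by ring
    have e2 : x₁ - a0 - (a2 - a0) = x₁ - a2 := by ring
    have e3 : y₁ - a0 + (a0 - a1) = y₁ - a1 := by ring
    have e4 : y₁ - a0 - (a2 - a0) = y₁ - a2 := by ring
    obtain ⟨⟨u₁, u₂, v₁, v₂, k1, k2, k3, k4, k5⟩, -, -⟩ := hf r b0 b2 b1 (a2 - a0) (a0 - a1)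
      (x₁ - a0) x₂ (y₁ - a0) y₂ hr (by linarith) (by linarith) hx0 (by rw [e1]; exact hx1)
      (by rw [e2]; exact hx2) hy0 (by rw [e3]; exact hy1) (by rw [e4]; exact hy2)
    rw [abs_of_nonpos (by linarith : a0 - a2 ≤ 0), abs_of_nonpos (by linarith : a1 - a0 ≤ 0)]
    refine ⟨u₁ - (a2 - a0), u₂, ?_, ?_, ?_⟩
    · have : u₁ - (a2 - a0) - - -(a0 - a2) = u₁ := by ring
      rw [this]; exact k3
    · have : u₁ - (a2 - a0) - (- -(a0 - a2) + -(a1 - a0)) = u₁ - (a0 - a1) := by ring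
      rw [this]; exact k4
    · have f1 : u₁ - (a2 - a0) - (x₁ - y₁) = v₁ - (a2 - a0) := by linarith
      have f2 : x₂ + y₂ - u₂ = v₂ := by linarith
      rw [f1, f2]; exact k5

/-- the middle centre is `0` -/
theorem tri_mid0 (hf : ST_FLD) {r a0 b0 a1 b1 a2 b2 x₁ x₂ y₁ y₂ u v : ℝ} (hr : 0 < r)
    (hx0 : Dk r (x₁ - a0) (x₂ - b0)) (hx1 : Dk r (x₁ - a1) (x₂ - b1))
    (hx2 : Dk r (x₁ - a2) (x₂ - b2)) (hy0 : Dk r (y₁ - a0) (y₂ - b0))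
    (hy1 : Dk r (y₁ - a1) (y₂ - b1)) (hy2 : Dk r (y₁ - a2) (y₂ - b2))
    (h : (a2 ≤ a0 ∧ a0 ≤ a1) ∨ (a1 ≤ a0 ∧ a0 ≤ a2)) (hu : |u| ≤ |a0 - a2|)
    (hv : |v - u| ≤ |a1 - a0|) :
    TRIQ r b0 b1 b2 (x₂ + y₂) (x₁ - y₁) u v := by
  have hH : y₂ + x₂ = x₂ + y₂ := add_comm _ _
  have hz : -(y₁ - x₁) = x₁ - y₁ := by ring
  have hP := tri_base hx0 hx1 hy2
  have hP' := (tri_base hy0 hy1 hx2).neg
  rw [hH, hz] at hP'
  have hF := tri_fold0 hf hr hx0 hx1 hx2 hy0 hy1 hy2 h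
  have hF' := (tri_fold0 hf hr hy0 hy1 hy2 hx0 hx1 hx2 h).neg
  rw [hH, hz] at hF'
  obtain ⟨α, hα, huα⟩ := tri_ratio hu
  obtain ⟨β, hβ, hvβ⟩ := tri_ratio hv
  have hst := tri_st hα hβ
  have hst' := tri_st hβ hα
  rcases h with ⟨h1, h2⟩ | ⟨h1, h2⟩
  · have := TRIQ.hull hP hP' hF hF' hst'
    rw [abs_of_nonneg (by linarith : 0 ≤ a0 - a2), abs_of_nonneg (by linarith : 0 ≤ a1 - a0)]
      at this
    have e1 : (β + α) / 2 * (a0 - a2) + (β - α) / 2 * -(a0 - a2) = u := by rw [huα]; ring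
    have e2 : (β + α) / 2 * (a1 - a2) + (β - α) / 2 * (-(a0 - a2) + (a1 - a0)) = v := by
      have : v = α * (a0 - a2) + β * (a1 - a0) := by linarith
      rw [this]; ring
    rw [e1, e2] at this
    exact this
  · have := TRIQ.hull hP hP' hF hF' hst
    rw [abs_of_nonpos (by linarith : a0 - a2 ≤ 0), abs_of_nonpos (by linarith : a1 - a0 ≤ 0)]
      at this
    have e1 : (α + β) / 2 * (a0 - a2) + (α - β) / 2 * - -(a0 - a2) = u := by rw [huα]; ring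
    have e2 : (α + β) / 2 * (a1 - a2) + (α - β) / 2 * (- -(a0 - a2) + -(a1 - a0)) = v := by
      have : v = α * (a0 - a2) + β * (a1 - a0) := by linarith
      rw [this]; ring
    rw [e1, e2] at this
    exact this

/-- the middle centre is `2` -/
theorem tri_mid2 (hf : ST_FLD) {r a0 b0 a1 b1 a2 b2 x₁ x₂ y₁ y₂ u v : ℝ} (hr : 0 < r)
    (hx0 : Dk r (x₁ - a0) (x₂ - b0)) (hx1 : Dk r (x₁ - a1) (x₂ - b1))
    (hx2 : Dk r (x₁ - a2) (x₂ - b2)) (hy0 : Dk r (y₁ - a0) (y₂ - b0))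
    (hy1 : Dk r (y₁ - a1) (y₂ - b1)) (hy2 : Dk r (y₁ - a2) (y₂ - b2))
    (h : (a0 ≤ a2 ∧ a2 ≤ a1) ∨ (a1 ≤ a2 ∧ a2 ≤ a0)) (hu : |u| ≤ |a0 - a2|)
    (hv : |v| ≤ |a1 - a2|) :
    TRIQ r b0 b1 b2 (x₂ + y₂) (x₁ - y₁) u v := by
  have hH : y₂ + x₂ = x₂ + y₂ := add_comm _ _
  have hz : -(y₁ - x₁) = x₁ - y₁ := by ring
  have hP := tri_base hx0 hx1 hy2
  have hP' := (tri_base hy0 hy1 hx2).neg
  rw [hH, hz] at hP'
  have hF := tri_fold2 hf hr hx0 hx1 hx2 hy0 hy1 hy2 h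
  have hF' := (tri_fold2 hf hr hy0 hy1 hy2 hx0 hx1 hx2 h).neg
  rw [hH, hz] at hF'
  obtain ⟨α, hα, huα⟩ := tri_ratio hu
  obtain ⟨β, hβ, hvβ⟩ := tri_ratio hv
  have hst := tri_st hα hβ
  have hst' := tri_st hβ hα
  rcases h with ⟨h1, h2⟩ | ⟨h1, h2⟩
  · have := TRIQ.hull hP hP' hF hF' hst'
    rw [abs_of_nonpos (by linarith : a0 - a2 ≤ 0), abs_of_nonneg (by linarith : 0 ≤ a1 - a2)]
      at this
    have e1 : (β + α) / 2 * (a0 - a2) + (β - α) / 2 * -(a0 - a2) = u := by rw [huα]; ring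
    have e2 : (β + α) / 2 * (a1 - a2) + (β - α) / 2 * (a1 - a2) = v := by rw [hvβ]; ring
    rw [e1, e2] at this
    exact this
  · have := TRIQ.hull hP hP' hF hF' hst
    rw [abs_of_nonneg (by linarith : 0 ≤ a0 - a2), abs_of_nonpos (by linarith : a1 - a2 ≤ 0)]
      at this
    have e1 : (α + β) / 2 * (a0 - a2) + (α - β) / 2 * (a0 - a2) = u := by rw [huα]; ring
    have e2 : (α + β) / 2 * (a1 - a2) + (α - β) / 2 * -(a1 - a2) = v := by rw [hvβ]; ring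
    rw [e1, e2] at this
    exact this

theorem st_TRI (hf : ST_FLD) : ST_TRI := by
  intro r x y σ x₁ x₂ y₁ y₂ hr hσ hx hy
  have main : TRIQ r (y 0) (y 1) (y 2) (x₂ + y₂) (x₁ - y₁) (σ 0 - σ 2) (σ 1 - σ 2) := by
    have hcases : ((x 0 ≤ x 2 ∧ x 2 ≤ x 1) ∨ (x 1 ≤ x 2 ∧ x 2 ≤ x 0)) ∨
        ((x 2 ≤ x 0 ∧ x 0 ≤ x 1) ∨ (x 1 ≤ x 0 ∧ x 0 ≤ x 2)) ∨
        ((x 2 ≤ x 1 ∧ x 1 ≤ x 0) ∨ (x 0 ≤ x 1 ∧ x 1 ≤ x 2)) := by
      rcases le_total (x 0) (x 1) with h1 | h1 <;> rcases le_total (x 1) (x 2) with h2 | h2 <;>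
        rcases le_total (x 0) (x 2) with h3 | h3 <;> tauto
    rcases hcases with h | h | h
    · exact tri_mid2 hf hr (hx 0) (hx 1) (hx 2) (hy 0) (hy 1) (hy 2) h (hσ 0 2) (hσ 1 2)
    · refine tri_mid0 hf hr (hx 0) (hx 1) (hx 2) (hy 0) (hy 1) (hy 2) h (hσ 0 2) ?_
      have : σ 1 - σ 2 - (σ 0 - σ 2) = σ 1 - σ 0 := by ring
      rw [this]; exact hσ 1 0
    · have := tri_mid0 hf (u := σ 1 - σ 2) (v := σ 0 - σ 2) hr (hx 1) (hx 0) (hx 2) (hy 1) (hy 0)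
        (hy 2) h (hσ 1 2) (by
          have : σ 0 - σ 2 - (σ 1 - σ 2) = σ 0 - σ 1 := by ring
          rw [this]; exact hσ 0 1)
      obtain ⟨c₁, c₂, k1, k2, k3⟩ := this
      exact ⟨c₁, c₂, k2, k1, k3⟩
  obtain ⟨c₁, c₂, k1, k2, k3⟩ := main
  refine ⟨c₁ + σ 2, c₂, c₁ + σ 2 - (x₁ - y₁), x₂ + y₂ - c₂, by ring, by ring, ?_, ?_, ?_⟩
  · have : c₁ + σ 2 - σ 0 = c₁ - (σ 0 - σ 2) := by ring
    rw [this]; exact k1
  · have : c₁ + σ 2 - σ 1 = c₁ - (σ 1 - σ 2) := by ring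
    rw [this]; exact k2
  · have : c₁ + σ 2 - (x₁ - y₁) - σ 2 = c₁ - (x₁ - y₁) := by ring
    rw [this]; exact k3

end AD
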