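import Mathlib

set_option autoImplicit false

namespace AD

/-- `q` arises from `p` by moving every point parallel to one unit vector `e` in such a way that
the differences of the `e`-coordinates do not grow in absolute value -/
def DirStep {E : Type} [NormedAddCommGroup E] [InnerProductSpace ℝ E] {n : ℕ}
    (p q : Fin n → E) : Prop :=
  ∃ e : E, ‖e‖ = 1 ∧ (∀ i, ∃ t : ℝ, q i = p i + t • e) ∧
    ∀ i j, |inner ℝ e (q i - q j)| ≤ |inner ℝ e (p i - p j)|

/-- the smallest relation between configurations of `n` points which contains the one-directional
contractions and is closed under composition and under convex combinations and limits of the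
second configuration -/
inductive Reach {E : Type} [NormedAddCommGroup E] [InnerProductSpace ℝ E] {n : ℕ} :
    (Fin n → E) → (Fin n → E) → Prop
  | step {p q : Fin n → E} : DirStep p q → Reach p q
  | comp {p q s : Fin n → E} : Reach p q → Reach q s → Reach p s
  | mix {p q s : Fin n → E} {a b : ℝ} : Reach p q → Reach p s → 0 ≤ a → 0 ≤ b → a + b = 1 →
      Reach p (a • q + b • s)
  | lim {p q : Fin n → E} {u : ℕ → Fin n → E} : (∀ k, Reach p (u k)) →
      Filter.Tendsto u Filter.atTop (nhds q) → Reach p q

end AD
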