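import Pool.Agent.Helper48.AX.Defs
import Pool.Agent.Helper12.AD.Defs

/-!
MP_efd95c_co, directional contractions: module statements.
Blueprint: /team-store/ad_blueprint.md
-/

set_option autoImplicit false

open scoped MeasureTheory ENNReal
open Complex

noncomputable section

namespace AD

/-- half width of the disk of radius `r` at height `s` -/
def w (r s : ℝ) : ℝ := Real.sqrt (r ^ 2 - s ^ 2)

/-- the point `(u, v)` lies in the closed disk of radius `|r|` about the origin -/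
def Dk (r u v : ℝ) : Prop := u ^ 2 + v ^ 2 ≤ r ^ 2

/-- the support function of a plane set in the direction `e θ` -/
def h (S : Set ℂ) (θ : ℝ) : ℝ := sSup ((fun z : ℂ => (z * (starRingEnd ℂ) (AX.e θ)).re) '' S)

/-- (WCV) the profile of the disk is concave -/
def ST_WCV : Prop := ∀ r : ℝ, 0 < r → ConcaveOn ℝ (Set.Icc (-r) r) (w r)

/-- (WCC) -/
def ST_WCC : Prop := ∀ r a b c d : ℝ, 0 < r → -r ≤ c → d ≤ r → c ≤ a → c ≤ b → a + b = c + d →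
  w r c + w r d ≤ w r a + w r b

/-- (T1A) -/
def ST_T1A : Prop := ∀ r d a σ X Y : ℝ, 0 < r → 0 ≤ d → |a| ≤ σ → d + σ ≤ r →
  X + Y = w r (d - σ) + w r (d + σ) → X ≤ w r (d + a) → Y ≤ w r (d - a) →
  ∃ δ, -d ≤ δ ∧ δ ≤ d ∧ Y + w r (d - σ) ≤ w r (δ - a) + w r (δ - σ) ∧
    X + w r (d - σ) ≤ w r (δ - a) + w r (δ + σ)

/-- (T1B) -/
def ST_T1B : Prop := ∀ r d a s t X Y A B : ℝ, 0 < r → 0 ≤ d →
  d + |a| ≤ r → d + |s| ≤ r → d + |t| ≤ r →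
  X ≤ w r (d + a) → Y ≤ w r (d - a) → X + A ≤ w r (d - s) → Y - A ≤ w r (d + s) →
  X - B ≤ w r (d - t) → Y + B ≤ w r (d + t) →
  ∃ δ, -d ≤ δ ∧ δ ≤ d ∧ A + X + Y ≤ w r (δ - a) + w r (δ - s) ∧
    B + X + Y ≤ w r (δ - a) + w r (δ - t)

/-- (T10) the hard case of the fold lemma: the points `x = (-X, d)`, `y = (Y, -d)`, centres
`(0, a)`, `(A, s)`, `(-B, t)` -/
def ST_T10 : Prop := ∀ r d a s t X Y A B : ℝ, 0 < r → 0 ≤ X → 0 ≤ Y → 0 ≤ A → 0 ≤ B →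
  Dk r X (d - a) → Dk r Y (d + a) → Dk r (X + A) (d - s) → Dk r (Y - A) (d + s) →
  Dk r (X - B) (d - t) → Dk r (Y + B) (d + t) →
  ∃ δ c, Dk r (c - A) (δ - s) ∧ Dk r (c - B) (δ - t) ∧ Dk r (c + X + Y) (δ + a)

/-- (FLD) the fold lemma: centres `(0, a)`, `(-B, t)`, `(A, s)`; the second one is reflected -/
def ST_FLD : Prop := ∀ r a s t A B x₁ x₂ y₁ y₂ : ℝ, 0 < r → 0 ≤ A → 0 ≤ B →
  Dk r x₁ (x₂ - a) → Dk r (x₁ + B) (x₂ - t) → Dk r (x₁ - A) (x₂ - s) →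
  Dk r y₁ (y₂ - a) → Dk r (y₁ + B) (y₂ - t) → Dk r (y₁ - A) (y₂ - s) →
  (∃ u₁ u₂ v₁ v₂, u₁ - v₁ = x₁ - y₁ ∧ u₂ + v₂ = x₂ + y₂ ∧
    Dk r u₁ (u₂ - a) ∧ Dk r (u₁ - B) (u₂ - t) ∧ Dk r (v₁ - A) (v₂ - s)) ∧
  (∃ u₁ u₂ v₁ v₂, u₁ - v₁ = x₁ - y₁ ∧ u₂ + v₂ = x₂ + y₂ ∧
    Dk r u₁ (u₂ - a) ∧ Dk r (u₁ - A) (u₂ - s) ∧ Dk r (v₁ - B) (v₂ - t)) ∧
  (∃ u₁ u₂ v₁ v₂, u₁ - v₁ = x₁ - y₁ ∧ u₂ + v₂ = x₂ + y₂ ∧
    Dk r (u₁ - B) (u₂ - t) ∧ Dk r (u₁ - A) (u₂ - s) ∧ Dk r v₁ (v₂ - a))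

/-- (TRI) three disks -/
def ST_TRI : Prop := ∀ (r : ℝ) (x y σ : Fin 3 → ℝ) (x₁ x₂ y₁ y₂ : ℝ), 0 < r →
  (∀ i j, |σ i - σ j| ≤ |x i - x j|) →
  (∀ i, Dk r (x₁ - x i) (x₂ - y i)) → (∀ i, Dk r (y₁ - x i) (y₂ - y i)) →
  ∃ u₁ u₂ v₁ v₂, u₁ - v₁ = x₁ - y₁ ∧ u₂ + v₂ = x₂ + y₂ ∧
    Dk r (u₁ - σ 0) (u₂ - y 0) ∧ Dk r (u₁ - σ 1) (u₂ - y 1) ∧ Dk r (v₁ - σ 2) (v₂ - y 2)

/-- (HEL) all disks -/
def ST_HEL : Prop := ∀ (n : ℕ) (r : ℝ) (x y σ : Fin n → ℝ) (x₁ x₂ y₁ y₂ : ℝ), 0 < r →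
  (∀ i j, |σ i - σ j| ≤ |x i - x j|) →
  (∀ i, Dk r (x₁ - x i) (x₂ - y i)) → (∀ i, Dk r (y₁ - x i) (y₂ - y i)) →
  ∃ u₁ u₂ v₁ v₂, u₁ - v₁ = x₁ - y₁ ∧ u₂ + v₂ = x₂ + y₂ ∧
    (∀ i, Dk r (u₁ - σ i) (u₂ - y i)) ∧ (∀ i, Dk r (v₁ - σ i) (v₂ - y i))

/-- (MNK) Minkowski form in the complex plane -/
def ST_MNK : Prop := ∀ (n : ℕ) (r : ℝ) (p q : Fin n → ℂ) (u : ℂ), 0 < r → ‖u‖ = 1 →
  (∀ i, ∃ t : ℝ, q i = p i + t * u) →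
  (∀ i j, |((q i - q j) * (starRingEnd ℂ) u).re| ≤ |((p i - p j) * (starRingEnd ℂ) u).re|) →
  ∀ x ∈ AX.K r p, ∀ y ∈ AX.K r p, ∃ x' ∈ AX.K r q, ∃ y' ∈ AX.K r q,
    x' - u ^ 2 * (starRingEnd ℂ) y' = x - u ^ 2 * (starRingEnd ℂ) y

/-- (SUP) support functions -/
def ST_SUP : Prop := ∀ (n : ℕ) (r : ℝ) (p q : Fin (n + 1) → ℂ) (φ : ℝ), 0 < r →
  (∀ i, ∃ t : ℝ, q i = p i + t * AX.e φ) →
  (∀ i j, |((q i - q j) * (starRingEnd ℂ) (AX.e φ)).re| ≤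
    |((p i - p j) * (starRingEnd ℂ) (AX.e φ)).re|) →
  (AX.K r p).Nonempty → (AX.K r q).Nonempty ∧
    ∀ θ, h (AX.K r p) θ + h (AX.K r p) (2 * φ + Real.pi - θ) ≤
      h (AX.K r q) θ + h (AX.K r q) (2 * φ + Real.pi - θ)

/-- (HCT) -/
def ST_HCT : Prop := ∀ S : Set ℂ, IsCompact S → S.Nonempty → Continuous (h S)

/-- (HRF) -/
def ST_HRF : Prop := ∀ S : Set ℂ, IsCompact S → S.Nonempty → ∀ φ : ℝ,
  ∫ θ in (0 : ℝ)..(2 * Real.pi), h S (2 * φ + Real.pi - θ) =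
    ∫ θ in (0 : ℝ)..(2 * Real.pi), h S θ

/-- (STP) a directional step -/
def ST_STP : Prop := ∀ (n : ℕ) (r : ℝ) (p q : Fin (n + 1) → ℂ), 0 < r → DirStep p q →
  (AX.K r p).Nonempty → (AX.K r q).Nonempty ∧
    ∫ θ in (0 : ℝ)..(2 * Real.pi), h (AX.K r p) θ ≤ ∫ θ in (0 : ℝ)..(2 * Real.pi), h (AX.K r q) θ

/-- (MIX) convex combinations -/
def ST_MIX : Prop := ∀ (n : ℕ) (r : ℝ) (q s : Fin (n + 1) → ℂ) (a b : ℝ), 0 < r →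
  0 ≤ a → 0 ≤ b → a + b = 1 → (AX.K r q).Nonempty → (AX.K r s).Nonempty →
  (AX.K r (a • q + b • s)).Nonempty ∧
    ∀ θ, a * h (AX.K r q) θ + b * h (AX.K r s) θ ≤ h (AX.K r (a • q + b • s)) θ

/-- (LIM) limits -/
def ST_LIM : Prop := ∀ (n : ℕ) (r : ℝ) (u : ℕ → Fin (n + 1) → ℂ) (q : Fin (n + 1) → ℂ) (J : ℝ),
  0 < r → Filter.Tendsto u Filter.atTop (nhds q) →
  (∀ k, (AX.K r (u k)).Nonempty ∧ J ≤ ∫ θ in (0 : ℝ)..(2 * Real.pi), h (AX.K r (u k)) θ) →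
  (AX.K r q).Nonempty ∧ J ≤ ∫ θ in (0 : ℝ)..(2 * Real.pi), h (AX.K r q) θ

/-- (INV) the invariant along `Reach` -/
def ST_INV : Prop := ∀ (n : ℕ) (r : ℝ) (p q : Fin (n + 1) → ℂ), 0 < r → Reach p q →
  (AX.K r p).Nonempty → (AX.K r q).Nonempty ∧
    ∫ θ in (0 : ℝ)..(2 * Real.pi), h (AX.K r p) θ ≤ ∫ θ in (0 : ℝ)..(2 * Real.pi), h (AX.K r q) θ

/-- (VTX) the two ends of a gap are the same vertex -/
def ST_VTX : Prop := ∀ (r : ℝ) (c c' : ℂ) (b : ℝ), 0 < r →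
  dist (c + (r : ℂ) * AX.e b) c' ≤ r →
  dist (c' + (r : ℂ) * AX.e (b + 2 * AX.dl r c c')) c ≤ r →
  c + (r : ℂ) * AX.e b = c' + (r : ℂ) * AX.e (b + 2 * AX.dl r c c')

/-- (HAR) the support function over an arc -/
def ST_HAR : Prop := ∀ (n : ℕ) (r : ℝ) (c : Fin (n + 1) → ℂ) (i : Fin (n + 1)) (θ : ℝ), 0 < r →
  θ ∈ AX.T r c i → h (AX.K r c) θ = (c i * (starRingEnd ℂ) (AX.e θ)).re + r

/-- (HGP) the support function over a gap -/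
def ST_HGP : Prop := ∀ (n : ℕ) (r : ℝ) (c : Fin (n + 1) → ℂ) (i j : Fin (n + 1)) (b θ : ℝ), 0 < r →
  b ∈ AX.T r c i → b + 2 * AX.dl r (c i) (c j) ∈ AX.T r c j →
  b ≤ θ → θ ≤ b + 2 * AX.dl r (c i) (c j) →
  h (AX.K r c) θ = ((c i + (r : ℂ) * AX.e b) * (starRingEnd ℂ) (AX.e θ)).re

/-- (IAR) integrals over an arc and the following gap -/
def ST_IAR : Prop := ∀ (n : ℕ) (r : ℝ) (c : Fin (n + 1) → ℂ) (i j : Fin (n + 1)) (a b : ℝ), 0 < r →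
  a ≤ b → Set.Icc a b ⊆ AX.T r c i → b + 2 * AX.dl r (c i) (c j) ∈ AX.T r c j →
  ∫ θ in a..(b + 2 * AX.dl r (c i) (c j)), h (AX.K r c) θ = r * (b - a) +
    (c j * (starRingEnd ℂ) (-I * AX.e (b + 2 * AX.dl r (c i) (c j)))).re -
    (c i * (starRingEnd ℂ) (-I * AX.e a)).re

/-- (CA1) Cauchy's formula, every disk touches -/
def ST_CA1 : Prop := ∀ (n : ℕ) (r : ℝ) (c : Fin (n + 2) → ℂ), 0 < r → Function.Injective c →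
  (∀ i, (AX.T r c i).Nonempty) →
  μH[1] (frontier (AX.K r c)) =
    ENNReal.ofReal (∫ θ in (0 : ℝ)..(2 * Real.pi), h (AX.K r c) θ)

/-- (CAU) Cauchy's formula for intersections of congruent disks -/
def ST_CAU : Prop := ∀ (n : ℕ) (r : ℝ) (c : Fin (n + 1) → ℂ), 0 < r → (AX.K r c).Nonempty →
  μH[1] (frontier (AX.K r c)) =
    ENNReal.ofReal (∫ θ in (0 : ℝ)..(2 * Real.pi), h (AX.K r c) θ)

/-- (CPX) the theorem in the complex plane -/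
def ST_CPX : Prop := ∀ (n : ℕ) (r : ℝ) (p q : Fin n → ℂ), Reach p q →
  μH[1] (frontier (⋂ i, Metric.closedBall (p i) r)) ≤
    μH[1] (frontier (⋂ i, Metric.closedBall (q i) r))

/-- (FIN) the theorem -/
def ST_FIN : Prop := ∀ (n : ℕ) (r : ℝ) (p q : Fin n → EuclideanSpace ℝ (Fin 2)), Reach p q →
  μH[1] (frontier (⋂ i, Metric.closedBall (p i) r)) ≤
    μH[1] (frontier (⋂ i, Metric.closedBall (q i) r))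

end AD
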